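import Pool.Agent.H818R2.Kiss4

/-! MP_b5f63d_co: the kissing numbers of consecutive dimensions have bounded ratio, and the limit
points of `log_2 τ(d) / d` form the whole interval `[c_-, c_+]`; the same for spherical codes. -/

open Filter Set Topology

namespace Pool.Agent.Results.MP_b5f63d_co.BoundedRatios

open Pool.Agent.H818R2

theorem result :
    (∀ n : ℕ, 4 ≤ n → kissing n ≤ kissing (n + 1) ∧ kissing (n + 1) ≤ 16 * kissing n) ∧
    {x | MapClusterPt x atTop (fun d : ℕ => Real.logb 2 (kissing d) / d)} =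
      Icc (liminf (fun d : ℕ => Real.logb 2 (kissing d) / d) atTop)
        (limsup (fun d : ℕ => Real.logb 2 (kissing d) / d) atTop) ∧
    (∀ θ : ℝ, 0 < θ → θ < Real.pi / 2 → ∀ m : ℕ, 0 < m →
      7 ≤ Real.cosh (m * Real.arcosh (1 / Real.cos θ)) →
      ∀ n : ℕ, 4 ≤ n → sphMax (n + 1) θ ≤ 8 * m * sphMax n θ) ∧
    (∀ θ : ℝ, 0 < θ → θ < Real.pi / 2 →
      {x | MapClusterPt x atTop (codeRate θ)} =
        Icc (liminf (codeRate θ) atTop) (limsup (codeRate θ) atTop)) := by
  refine ⟨fun n hn => ?_, codeRate_clusterPts (by positivity) (by linarith [Real.pi_pos]),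
    fun θ h1 h2 m hm h7 n hn => sphMax_succ_le h1 h2 hm h7 hn,
    fun θ h1 h2 => codeRate_clusterPts h1 h2⟩
  have : NeZero n := ⟨by omega⟩
  exact ⟨sphMax_mono_succ (Real.sin_pos_of_pos_of_lt_pi (by positivity)
    (by linarith [Real.pi_pos])), kissing_succ_le hn⟩

end Pool.Agent.Results.MP_b5f63d_co.BoundedRatios
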