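import Pool.Agent.H613R2.LP.KFinal
import Pool.Agent.H390R2.LP.Main

/-!
The exponential growth rate of kissing numbers is at most `0.397`: `τ(d) ≤ 2 ^ (0.397 d)` for all
large `d`. `kissing d` is the kissing number of the unit ball of `ℝᵈ`, defined in
`Pool.Agent.H613R2.LP.KissDefs` by configurations of closed unit balls touching the unit ball about
the origin (`IsKissing`).
-/

open Filter

namespace Pool.Agent.Results.MP_b5f63d_co.KissingExponent

open Pool.Agent.H613R2.LP

theorem result :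
    (∀ᶠ d : ℕ in atTop, ∀ C : Finset (EuclideanSpace ℝ (Fin d)), IsKissing d C →
      (C.card : ℝ) ≤ (2 : ℝ) ^ ((397 / 1000 : ℝ) * d)) ∧
    (∀ᶠ d : ℕ in atTop, (kissing d : ℝ) ≤ (2 : ℝ) ^ ((397 / 1000 : ℝ) * d)) ∧
    limsup (fun d : ℕ => Real.logb 2 (kissing d) / d) atTop ≤ 397 / 1000 :=
  kissing_397 Pool.Agent.H390R2.LP.iidw

end Pool.Agent.Results.MP_b5f63d_co.KissingExponent
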