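import Pool.Agent.H161R2.KissStat

/-! MP_b5f63d_co: spherical codes and kissing configurations invariant under isometries with
pairwise orthogonal moved spaces. `moved g` is the orthogonal complement of the fixed space of
`g` and `mdim g` its dimension; `sphMax n θ` is the maximal size of a spherical code of `ℝⁿ` with
angular distance `≥ θ`; `kissing n = sphMax n (π/3)`; `kept g X` is the set of the points of `X`
which every `g i` maps into `X` (all of `X` if `X` is invariant). -/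

open Filter

namespace Pool.Agent.Results.MP_b5f63d_co.OrthogonalSymmetries

open Pool.Agent.H818R2 Pool.Agent.H161R2.KissSym

theorem result :
    -- (1) codes of any angle
    (∀ (θ : ℝ) (K n m : ℕ), 0 < Real.sin (θ / 2) → 1 < (K + 1) * Real.sin (θ / 2) ^ 2 →
      ∀ g : Fin m → Isom n, OrthMoved g →
        (∀ X, IsSphCode n θ X → (kept g X).card ≤ codeSum K θ g) ∧
        ∃ X, IsSphCode n θ X ∧ (∀ x ∈ X, ∀ i, g i x = x) ∧
          X.card = sphMax (n - ∑ i, mdim (g i)) θ) ∧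
    -- (2) kissing configurations, isometries different from the identity
    (∀ n m : ℕ, m + 4 ≤ n → ∀ g : Fin m → Isom n, (∀ i, ∃ x, g i x ≠ x) → OrthMoved g →
      ∀ X, IsSphCode n (Real.pi / 3) X →
        (kept g X).card ≤ (16 * (m + 1)) ^ 4 * kissing (n - m)) ∧
    -- (3) isometries with moved spaces of dimension at least `k`
    (∀ n m k : ℕ, 4 ≤ m → ∀ g : Fin m → Isom n, OrthMoved g → (∀ i, k ≤ mdim (g i)) →
      ∀ X, IsSphCode n (Real.pi / 3) X →
        (kept g X).card ≤ (m + 1) ^ 4 * kissing (n - (m - 4) * k)) ∧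
    -- (4) growth rates
    (∀ δ ε : ℝ, 0 ≤ δ → δ < 1 → 0 < ε → ∀ᶠ n : ℕ in atTop, ∀ (m k : ℕ) (g : Fin m → Isom n),
      4 ≤ m → 0 < k → OrthMoved g → (∀ i, k ≤ mdim (g i)) → δ * n ≤ (m - 4 : ℕ) * k →
      ∀ X, IsSphCode n (Real.pi / 3) X →
        ((kept g X).card : ℝ) ≤ (2 : ℝ) ^ (((1 - δ) * cplus + ε) * n)) ∧
    -- (5) exponentially smaller than the kissing number
    ∀ᶠ n : ℕ in atTop, ∀ (m k : ℕ) (g : Fin m → Isom n),
      4 ≤ m → 0 < k → OrthMoved g → (∀ i, k ≤ mdim (g i)) →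
      (12 / 25 : ℝ) * n ≤ (m - 4 : ℕ) * k →
      ∀ X, IsSphCode n (Real.pi / 3) X →
        ((kept g X).card : ℝ) ≤ (2 : ℝ) ^ (-(n : ℝ) / 1000) * kissing n :=
  ⟨fun _ _ _ _ hs hK g hV => ⟨fun _ hX => card_le hs hK g hV hX, exists_fixed hs g hV⟩,
    fun _ _ hn g hg hV _ hX => kiss_nontrivial hn g hg hV hX,
    fun _ _ _ hm g hV hk _ hX => kiss_le hm g hV hk hX,
    fun _ _ h0 h1 hε => asym h0 h1 hε, small⟩

end Pool.Agent.Results.MP_b5f63d_co.OrthogonalSymmetries
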